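import Pool.Agent.H94.IC.Targets1

/-!
Module ANW: common zero sets of countable families of real analytic functions are analytic.
-/

set_option autoImplicit false

open MeasureTheory Set Filter Topology Metric
open Pool.Agent.H94.IC
open scoped ENNReal NNReal ContDiff RealInnerProductSpace

namespace Pool.Agent.H90.IC

theorem gh_mono {U V : Set C3} {F : C3 → ℂ} (h : GH V F) (hUV : U ⊆ V) : GH U F :=
  ⟨h.1.mono hUV, fun z hz v => h.2 z (hUV hz) v⟩

/-- a holomorphic function is holomorphic along lines, at every point of the line -/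
theorem gh_line {U : Set C3} {F : C3 → ℂ} (h : GH U F) (z v : C3) (t : ℂ) (ht : z + t • v ∈ U) :
    DifferentiableAt ℂ (fun t : ℂ => F (z + t • v)) t := by
  have h1 := h.2 (z + t • v) ht v
  have h2 : DifferentiableAt ℂ (fun s : ℂ => F (z + t • v + s • v)) (t - t) := by
    rw [sub_self]
    exact h1
  have h3 : DifferentiableAt ℂ (fun s : ℂ => s - t) t := by fun_prop
  have h4 := DifferentiableAt.comp (f := fun s : ℂ => s - t)
    (g := fun s : ℂ => F (z + t • v + s • v)) t h2 h3
  have h5 : ((fun s : ℂ => F (z + t • v + s • v)) ∘ fun s => s - t) =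
      fun s : ℂ => F (z + s • v) := by
    ext s
    simp only [Function.comp_apply]
    congr 1
    rw [add_assoc, ← add_smul]
    congr 2
    ring
  rwa [h5] at h4

theorem gh_sum (ghc : T_GHC) {U : Set C3} (hU : IsOpen U) (F : ℕ → C3 → ℂ) (hF : ∀ n, GH U (F n))
    (N : ℕ) : GH U (fun z => ∑ n ∈ Finset.range N, F n z) := by
  induction N with
  | zero =>
    simp only [Finset.range_zero, Finset.sum_empty]
    exact (ghc U hU).1 0
  | succ N ih =>
    simp only [Finset.sum_range_succ]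
    exact ((ghc U hU).2.1 _ _ ih (hF N)).1

theorem cx_line (p x : E) (t : ℝ) : cx (p + t • (x - p)) = cx p + (t : ℂ) • (cx x - cx p) := by
  ext k
  simp [cx]

theorem anw (ghc : T_GHC) : T_ANW := by
  intro f p ρ Y hρ hf hY hne
  choose F hF1 hF2 using hf
  have hU : IsOpen (ball (cx p) (ρ / 2)) := isOpen_ball
  have hsub : ball (cx p) (ρ / 2) ⊆ ball (cx p) ρ := ball_subset_ball (by linarith)
  have hcsub : closedBall (cx p) (ρ / 2) ⊆ ball (cx p) ρ := closedBall_subset_ball (by linarith)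
  -- bounds
  have hM : ∀ n, ∃ M : ℝ, 1 ≤ M ∧ ∀ z ∈ ball (cx p) (ρ / 2), ‖F n z‖ ≤ M := by
    intro n
    obtain ⟨C, hC⟩ := (isCompact_closedBall (cx p) (ρ / 2)).exists_bound_of_continuousOn
      ((hF1 n).1.mono hcsub)
    exact ⟨max C 1, le_max_right _ _, fun z hz =>
      (hC z (ball_subset_closedBall hz)).trans (le_max_left _ _)⟩
  choose M hM1 hM2 using hM
  set T : ℕ → C3 → ℂ := fun n z => ((1 / 2 : ℝ) ^ n : ℝ) * ((((M n)⁻¹ : ℝ) : ℂ) * F n z *
    ((((M n)⁻¹ : ℝ) : ℂ) * F n z)) with hT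
  have hTGH : ∀ n, GH (ball (cx p) (ρ / 2)) (T n) := by
    intro n
    have h1 := gh_mono (hF1 n) hsub
    have h2 := ((ghc _ hU).2.1 _ _ ((ghc _ hU).1 (((M n)⁻¹ : ℝ) : ℂ)) h1).2
    have h3 := ((ghc _ hU).2.1 _ _ h2 h2).2
    exact ((ghc _ hU).2.1 _ _ ((ghc _ hU).1 (((1 / 2 : ℝ) ^ n : ℝ) : ℂ)) h3).2
  have hTb : ∀ n, ∀ z ∈ ball (cx p) (ρ / 2), ‖T n z‖ ≤ (1 / 2 : ℝ) ^ n := by
    intro n z hz
    have h1 : ‖(((M n)⁻¹ : ℝ) : ℂ) * F n z‖ ≤ 1 := by
      rw [norm_mul, Complex.norm_real, Real.norm_of_nonneg (inv_nonneg.2 (by linarith [hM1 n]))]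
      rw [inv_mul_le_iff₀ (by linarith [hM1 n]), mul_one]
      exact hM2 n z hz
    simp only [hT]
    rw [norm_mul, norm_mul, Complex.norm_real, Real.norm_of_nonneg (by positivity)]
    have h2 : ‖(((M n)⁻¹ : ℝ) : ℂ) * F n z‖ * ‖(((M n)⁻¹ : ℝ) : ℂ) * F n z‖ ≤ 1 :=
      mul_le_one₀ h1 (norm_nonneg _) h1
    have h3 : (0 : ℝ) ≤ (1 / 2 : ℝ) ^ n := by positivity
    nlinarith
  have hsum : Summable fun n : ℕ => (1 / 2 : ℝ) ^ n :=
    summable_geometric_of_lt_one (by norm_num) (by norm_num)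
  have hunif := tendstoUniformlyOn_tsum_nat hsum (fun n z hz => hTb n z hz)
  have hG : GH (ball (cx p) (ρ / 2)) (fun z => ∑' n, T n z) :=
    (ghc _ hU).2.2.2.2.2 _ _ (fun N => gh_sum ghc hU T hTGH N)
      hunif.tendstoLocallyUniformlyOn
  -- real points
  have hreal : ∀ x : E, cx x ∈ ball (cx p) (ρ / 2) → (∑' n, T n (cx x)) =
      ((∑' n, (1 / 2 : ℝ) ^ n * ((M n)⁻¹ * f n x) ^ 2 : ℝ) : ℂ) := by
    intro x hx
    rw [Complex.ofReal_tsum]
    refine tsum_congr fun n => ?_
    simp only [hT]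
    rw [hF2 n x (hsub hx)]
    push_cast
    ring
  have hsummable : ∀ x : E, cx x ∈ ball (cx p) (ρ / 2) →
      Summable fun n : ℕ => (1 / 2 : ℝ) ^ n * ((M n)⁻¹ * f n x) ^ 2 := by
    intro x hx
    refine Summable.of_norm_bounded hsum fun n => ?_
    have h1 := hTb n (cx x) hx
    have h2 : T n (cx x) = (((1 / 2 : ℝ) ^ n * ((M n)⁻¹ * f n x) ^ 2 : ℝ) : ℂ) := by
      simp only [hT]
      rw [hF2 n x (hsub hx)]
      push_cast
      ring
    rw [h2, Complex.norm_real] at h1
    exact h1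
  refine ⟨ρ / 2, fun z => ∑' n, T n z, by linarith, hG, ?_, ?_⟩
  · intro x hx
    simp only
    rw [hreal x hx]
    refine ⟨Complex.ofReal_im _, ?_⟩
    rw [hY x (hsub hx), Complex.ofReal_eq_zero]
    have hnn : ∀ n : ℕ, 0 ≤ (1 / 2 : ℝ) ^ n * ((M n)⁻¹ * f n x) ^ 2 := fun n => by positivity
    constructor
    · intro h
      have : (fun n : ℕ => (1 / 2 : ℝ) ^ n * ((M n)⁻¹ * f n x) ^ 2) = fun _ => 0 := by
        ext n
        rw [h n]
        ring
      rw [this, tsum_zero]
    · intro h n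
      have h1 : HasSum (fun n : ℕ => (1 / 2 : ℝ) ^ n * ((M n)⁻¹ * f n x) ^ 2) 0 := by
        rw [← h]
        exact (hsummable x hx).hasSum
      have h2 := (hasSum_zero_iff_of_nonneg hnn).1 h1
      have h3 := congrFun h2 n
      simp only [Pi.zero_apply] at h3
      have h4 : (1 / 2 : ℝ) ^ n ≠ 0 := by positivity
      have h5 : ((M n)⁻¹ * f n x) ^ 2 = 0 := by
        rcases mul_eq_zero.1 h3 with h | h
        · exact absurd h h4
        · exact h
      have h6 : (M n)⁻¹ * f n x = 0 := pow_eq_zero_iff (two_ne_zero) |>.1 h5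
      rcases mul_eq_zero.1 h6 with h | h
      · have := hM1 n
        have h7 : M n = 0 := inv_eq_zero.1 h
        linarith
      · exact h
  · -- a nontrivial point near the centre
    by_contra hcon
    push Not at hcon
    obtain ⟨x, hx, hxY⟩ := hne
    have h1 : ∃ n, f n x ≠ 0 := by
      by_contra h
      push Not at h
      exact hxY ((hY x hx).2 h)
    obtain ⟨n, hn⟩ := h1
    set v : C3 := cx x - cx p with hv
    set V : Set ℂ := {t : ℂ | cx p + t • v ∈ ball (cx p) ρ} with hV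
    have hlin : ∀ t : ℂ, cx p + t • v ∈ ball (cx p) ρ ↔ ‖t • v‖ < ρ := by
      intro t
      rw [mem_ball, dist_eq_norm, add_sub_cancel_left]
    have hcontl : Continuous fun t : ℂ => cx p + t • v := by fun_prop
    have hVo : IsOpen V := isOpen_ball.preimage hcontl
    have hVc : Convex ℝ V := by
      intro a ha b hb s t hs ht hst
      have ha' := (hlin a).1 ha
      have hb' := (hlin b).1 hb
      refine (hlin _).2 ?_
      rw [norm_smul] at ha' hb' ⊢
      have h2 : ‖s • a + t • b‖ ≤ s * ‖a‖ + t * ‖b‖ := by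
        refine (norm_add_le _ _).trans ?_
        rw [norm_smul, norm_smul, Real.norm_of_nonneg hs, Real.norm_of_nonneg ht]
      have h3 := norm_nonneg v
      calc ‖s • a + t • b‖ * ‖v‖ ≤ (s * ‖a‖ + t * ‖b‖) * ‖v‖ :=
            mul_le_mul_of_nonneg_right h2 h3
        _ = s * (‖a‖ * ‖v‖) + t * (‖b‖ * ‖v‖) := by ring
        _ < ρ := by
            rcases eq_or_lt_of_le hs with h | h
            · have ht1 : t = 1 := by linarith
              rw [← h, ht1]
              linarith
            · have h4 : s * (‖a‖ * ‖v‖) < s * ρ := mul_lt_mul_of_pos_left ha' h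
              have h5 : t * (‖b‖ * ‖v‖) ≤ t * ρ := mul_le_mul_of_nonneg_left hb'.le ht
              nlinarith
    have hana : AnalyticOnNhd ℂ (fun t : ℂ => F n (cx p + t • v)) V := by
      apply DifferentiableOn.analyticOnNhd _ hVo
      intro t ht
      exact (gh_line (hF1 n) (cx p) v t ht).differentiableWithinAt
    have h0V : (0 : ℂ) ∈ V := by
      refine (hlin 0).2 ?_
      rw [zero_smul, norm_zero]
      exact hρ
    have h1V : (1 : ℂ) ∈ V := by
      show cx p + (1 : ℂ) • v ∈ ball (cx p) ρ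
      rw [one_smul, hv, add_sub_cancel]
      exact hx
    have hfreq : ∃ᶠ t : ℂ in 𝓝[≠] 0, F n (cx p + t • v) = 0 := by
      have hto : Tendsto (fun r : ℝ => (r : ℂ)) (𝓝[>] 0) (𝓝[≠] 0) := by
        rw [tendsto_nhdsWithin_iff]
        constructor
        · have : Tendsto (fun r : ℝ => (r : ℂ)) (𝓝 0) (𝓝 ((0 : ℝ) : ℂ)) :=
            Complex.continuous_ofReal.tendsto 0
          exact this.mono_left nhdsWithin_le_nhds
        · filter_upwards [self_mem_nhdsWithin] with r hr
          have : (0 : ℝ) < r := hr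
          simpa using this.ne'
      have hev : ∀ᶠ r : ℝ in 𝓝[>] 0, F n (cx p + (r : ℂ) • v) = 0 := by
        have hc : Tendsto (fun r : ℝ => cx p + (r : ℂ) • v) (𝓝[>] 0) (𝓝 (cx p)) := by
          have h5 : Tendsto (fun t : ℂ => cx p + t • v) (𝓝 0) (𝓝 (cx p + (0 : ℂ) • v)) :=
            hcontl.tendsto 0
          rw [zero_smul, add_zero] at h5
          exact (h5.mono_left nhdsWithin_le_nhds).comp hto
        filter_upwards [hc.eventually (isOpen_ball.mem_nhds (mem_ball_self
          (by linarith : (0 : ℝ) < ρ / 2)))] with r hr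
        rw [← cx_line p x r] at hr ⊢
        rw [hF2 n _ (hsub hr)]
        have h6 := hcon _ hr
        rw [(hY _ (hsub hr)).1 h6 n]
        simp
      exact hto.frequently hev.frequently
    have h8 := hana.eqOn_zero_of_preconnected_of_frequently_eq_zero hVc.isPreconnected h0V hfreq
    have h9 := h8 h1V
    simp only [Pi.zero_apply, one_smul, hv, add_sub_cancel] at h9
    rw [hF2 n x hx] at h9
    exact hn (Complex.ofReal_eq_zero.1 h9)

end Pool.Agent.H90.IC
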