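import Pool.Agent.H94.IC.Targets3

/-!
Module CIR: injective continuous self maps of the circle are surjective.
-/

set_option autoImplicit false

open MeasureTheory Set Filter Topology Metric
open Pool.Agent.H94.IC

namespace Pool.Agent.H90.IC

theorem cir : T_CIR := by
  intro f hf hinj z0
  by_contra hz
  have hz : ∀ z, f z ≠ z0 := fun z h => hz ⟨z, h⟩
  -- the angle
  set g : Circle → ℝ := fun z => Complex.arg (-((f z * z0⁻¹ : Circle) : ℂ)) with hg
  have hne : ∀ z, ((f z * z0⁻¹ : Circle) : ℂ) ≠ 1 := by
    intro z h
    have h1 : f z * z0⁻¹ = 1 := by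
      ext
      rw [h]
      simp
    exact hz z (mul_inv_eq_one.1 h1)
  have hslit : ∀ z, -((f z * z0⁻¹ : Circle) : ℂ) ∈ Complex.slitPlane := by
    intro z
    rw [Complex.mem_slitPlane_iff_arg]
    constructor
    · intro h
      have h1 : ‖-((f z * z0⁻¹ : Circle) : ℂ)‖ = 1 := by
        rw [norm_neg, Circle.norm_coe]
      have h2 : -((f z * z0⁻¹ : Circle) : ℂ) = -1 := by
        apply Complex.ext_norm_arg
        · rw [h1]
          simp
        · rw [h, Complex.arg_neg_one]
      exact hne z (neg_injective h2)
    · intro h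
      have h1 : ‖-((f z * z0⁻¹ : Circle) : ℂ)‖ = 1 := by
        rw [norm_neg, Circle.norm_coe]
      rw [h, norm_zero] at h1
      exact zero_ne_one h1
  have hcont : Continuous g := by
    rw [continuous_iff_continuousAt]
    intro z
    have h1 : ContinuousAt (fun z => -((f z * z0⁻¹ : Circle) : ℂ)) z := by
      apply Continuous.continuousAt
      fun_prop
    exact ContinuousAt.comp (f := fun z => -((f z * z0⁻¹ : Circle) : ℂ))
      (Complex.continuousAt_arg (hslit z)) h1
  have hginj : Function.Injective g := by
    intro a b hab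
    have h2 : -((f a * z0⁻¹ : Circle) : ℂ) = -((f b * z0⁻¹ : Circle) : ℂ) := by
      apply Complex.ext_norm_arg
      · rw [norm_neg, Circle.norm_coe, norm_neg, Circle.norm_coe]
      · exact hab
    have h3 : f a * z0⁻¹ = f b * z0⁻¹ := by
      ext
      exact neg_injective h2
    exact hinj (mul_right_cancel h3)
  set k : ℝ → ℝ := fun t => g (Circle.exp t) - g (Circle.exp (t + Real.pi)) with hk
  have hkc : Continuous k := by
    have : Continuous fun t : ℝ => Circle.exp t := Circle.exp.continuous
    exact (hcont.comp this).sub (hcont.comp (this.comp (continuous_id.add continuous_const)))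
  have hpi : k Real.pi = - k 0 := by
    simp only [hk, zero_add]
    have h1 : Circle.exp (Real.pi + Real.pi) = Circle.exp 0 := by
      ext
      rw [Circle.coe_exp, Circle.coe_exp]
      have : ((Real.pi + Real.pi : ℝ) : ℂ) * Complex.I = 2 * Real.pi * Complex.I := by
        push_cast
        ring
      rw [this, Complex.exp_two_pi_mul_I]
      simp
    rw [h1]
    ring
  have h0 : (0 : ℝ) ∈ k '' univ := by
    rcases le_total (k 0) 0 with h | h
    · have h1 := intermediate_value_Icc Real.pi_pos.le hkc.continuousOn
      obtain ⟨t, -, ht⟩ := h1 ⟨h, by rw [hpi]; linarith⟩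
      exact ⟨t, mem_univ _, ht⟩
    · have h1 := intermediate_value_Icc' Real.pi_pos.le hkc.continuousOn
      obtain ⟨t, -, ht⟩ := h1 ⟨by rw [hpi]; linarith, h⟩
      exact ⟨t, mem_univ _, ht⟩
  obtain ⟨t, -, ht⟩ := h0
  have h1 : Circle.exp t = Circle.exp (t + Real.pi) := hginj (sub_eq_zero.1 ht)
  rw [Circle.exp_add] at h1
  have h2 : Circle.exp Real.pi = 1 := by
    have := h1
    rw [eq_comm, mul_eq_left] at this
    exact this
  have h3 := congrArg (fun z : Circle => (z : ℂ)) h2
  simp only [Circle.coe_exp, Circle.coe_one, Complex.exp_pi_mul_I] at h3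
  norm_num at h3

end Pool.Agent.H90.IC
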