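import Pool.Agent.H94.IC.Targets3

/-!
Module SQI: interior points are dense in a crack.
-/

set_option autoImplicit false

open MeasureTheory Set Filter Topology Metric
open Pool.Agent.H94.IC
open scoped ENNReal NNReal ContDiff RealInnerProductSpace

namespace Pool.Agent.H90.IC

/-- restriction and translation of a chart -/
theorem chart_shift (Ψ : OpenPartialHomeomorph E E) (h1 : ContDiffOn ℝ ∞ Ψ Ψ.source)
    (h2 : ContDiffOn ℝ ∞ Ψ.symm Ψ.target) (s : Set E) (hs : IsOpen s) (c : E) :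
    ∃ Ψ' : OpenPartialHomeomorph E E, Ψ'.source = Ψ.source ∩ s ∧ (∀ x, Ψ' x = Ψ x - c) ∧
      ContDiffOn ℝ ∞ Ψ' Ψ'.source ∧ ContDiffOn ℝ ∞ Ψ'.symm Ψ'.target := by
  refine ⟨(Ψ.restrOpen s hs).transHomeomorph (Homeomorph.subRight c), ?_, ?_, ?_, ?_⟩
  · rfl
  · intro x
    rfl
  · have h3 : ContDiffOn ℝ ∞ (fun x => Ψ x - c) (Ψ.source ∩ s) :=
      (h1.mono inter_subset_left).sub contDiffOn_const
    exact h3
  · have h3 : ContDiffOn ℝ ∞ (fun y => Ψ.symm (y + c)) {y | y + c ∈ Ψ.target} := by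
      refine h2.comp ?_ (fun y hy => hy)
      exact (contDiff_id.add contDiff_const).contDiffOn
    refine h3.mono ?_
    intro y hy
    exact hy.1

theorem sqi : T_SQI := by
  intro Ω S hS p hp
  rcases hS.chart p hp with h | h
  · exact subset_closure h
  obtain ⟨-, Ψ, hpΨ, hΨp, h1, h2, h3⟩ := h
  -- the point with coordinates `(a, 0, 0)`
  have h0t : (0 : E) ∈ Ψ.target := by
    rw [← hΨp]
    exact Ψ.map_source hpΨ
  have hcurve : Tendsto (fun a : ℝ => a • ev 0) (𝓝[>] 0) (𝓝 (0 : E)) := by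
    have : Tendsto (fun a : ℝ => a • ev 0) (𝓝 0) (𝓝 ((0 : ℝ) • ev 0)) :=
      (continuous_id.smul continuous_const).tendsto 0
    rw [zero_smul] at this
    exact this.mono_left nhdsWithin_le_nhds
  have hq : Tendsto (fun a : ℝ => Ψ.symm (a • ev 0)) (𝓝[>] 0) (𝓝 p) := by
    have h4 : ContinuousAt Ψ.symm (0 : E) := Ψ.continuousAt_symm h0t
    have h5 : Ψ.symm (0 : E) = p := by rw [← hΨp, Ψ.left_inv hpΨ]
    unfold ContinuousAt at h4
    rw [h5] at h4
    exact h4.comp hcurve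
  have hev : ∀ᶠ a : ℝ in 𝓝[>] 0, a • ev 0 ∈ Ψ.target :=
    hcurve.eventually (Ψ.open_target.mem_nhds h0t)
  refine mem_closure_of_tendsto hq ?_
  filter_upwards [hev, self_mem_nhdsWithin] with a ha ha0
  have ha0 : 0 < a := ha0
  set q := Ψ.symm (a • ev 0) with hqd
  have hΨq : Ψ q = a • ev 0 := Ψ.right_inv ha
  have hqs : q ∈ Ψ.source := Ψ.map_target ha
  have hq2 : (Ψ q) 2 = 0 := by
    rw [hΨq]
    simp
  have hq0 : (Ψ q) 0 = a := by
    rw [hΨq]
    simp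
  have hqS : q ∈ S := (h3 q hqs).2 ⟨hq2, fun _ => by rw [hq0]; exact ha0.le⟩
  refine ⟨hqS, ?_⟩
  have hop : IsOpen (Ψ.source ∩ Ψ ⁻¹' {y : E | 0 < y 0}) := by
    apply Ψ.isOpen_inter_preimage
    exact isOpen_lt continuous_const (by fun_prop)
  obtain ⟨Ψ', hs', hv', hc1, hc2⟩ := chart_shift Ψ h1 h2 _ hop (Ψ q)
  refine ⟨Ψ', ?_, ?_, hc1, hc2, ?_⟩
  · rw [hs']
    exact ⟨hqs, hqs, by show 0 < (Ψ q) 0; rw [hq0]; exact ha0⟩
  · rw [hv', sub_self]
  · intro x hx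
    rw [hs'] at hx
    obtain ⟨hx1, -, hx2⟩ := hx
    have hx2 : 0 < (Ψ x) 0 := hx2
    rw [h3 x hx1, hv']
    have h6 : (Ψ x - Ψ q) 2 = (Ψ x) 2 := by
      rw [PiLp.sub_apply, hq2, sub_zero]
    rw [h6]
    constructor
    · intro h
      exact ⟨h.1, fun hf => hf.elim⟩
    · intro h
      exact ⟨h.1, fun _ => hx2.le⟩

end Pool.Agent.H90.IC
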