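import Pool.Agent.H90.IC.ANW

/-!
Module NAG: Nagumo bound for iterated derivations.
-/

set_option autoImplicit false

open MeasureTheory Set Filter Topology Metric
open Pool.Agent.H94.IC
open scoped ENNReal NNReal ContDiff RealInnerProductSpace

namespace Pool.Agent.H90.IC

/-- smoothness of partial derivatives -/
theorem pd_smooth {O : Set E} {f : E → ℝ} (hO : IsOpen O) (hf : ContDiffOn ℝ ∞ f O) (k : Fin 3) :
    ContDiffOn ℝ ∞ (pd k f) O := by
  have h1 : ContDiffOn ℝ ∞ (fderiv ℝ f) O := hf.fderiv_of_isOpen hO (by simp)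
  exact h1.clm_apply contDiffOn_const

theorem Lu_smooth {O : Set E} {u f : E → ℝ} (hO : IsOpen O) (hu : ContDiffOn ℝ ∞ u O)
    (hf : ContDiffOn ℝ ∞ f O) : ContDiffOn ℝ ∞ (Lu u f) O := by
  unfold Lu
  exact ContDiffOn.sum fun k _ => (pd_smooth hO hu k).mul (pd_smooth hO hf k)

theorem cx_add_single (x : E) (k : Fin 3) (t : ℝ) :
    cx (x + t • ev k) = cx x + (t : ℂ) • (Pi.single k (1 : ℂ) : C3) := by
  ext j
  by_cases h : j = k
  · subst h
    simp [cx]
  · simp [cx, h]

/-- complex directional derivatives at real points -/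
theorem DD_real {O : Set E} {f : E → ℝ} {U : Set C3} {F : C3 → ℂ} (hO : IsOpen O)
    (hf : ContDiffOn ℝ ∞ f O) (hU : IsOpen U) (hF : GH U F)
    (hFf : ∀ x : E, cx x ∈ U → F (cx x) = (f x : ℂ)) (x : E) (hx : x ∈ O) (hxU : cx x ∈ U)
    (k : Fin 3) : DD (Pi.single k 1) F (cx x) = (pd k f x : ℂ) := by
  set e : C3 := Pi.single k 1 with he
  have h1 : HasDerivAt (fun t : ℂ => F (cx x + t • e)) (DD e F (cx x)) ((0 : ℝ) : ℂ) := by
    rw [Complex.ofReal_zero]
    exact (hF.2 _ hxU e).hasDerivAt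
  have h2 := h1.comp_ofReal
  have h3 : HasDerivAt (fun t : ℝ => ((f (x + t • ev k) : ℝ) : ℂ)) (pd k f x : ℂ) 0 := by
    have h4 : HasFDerivAt f (fderiv ℝ f x) (x + (0 : ℝ) • ev k) := by
      rw [zero_smul, add_zero]
      exact ((hf.differentiableOn (by simp)).differentiableAt (hO.mem_nhds hx)).hasFDerivAt
    have h5 : HasDerivAt (fun t : ℝ => x + t • ev k) (ev k) 0 := by
      have h6 := ((hasDerivAt_id (0 : ℝ)).smul_const (ev k)).const_add x
      simpa using h6
    have h6 := h4.comp_hasDerivAt (0 : ℝ) h5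
    exact h6.ofReal_comp
  have h4 : (fun t : ℝ => F (cx x + (t : ℂ) • e)) =ᶠ[𝓝 0]
      fun t : ℝ => ((f (x + t • ev k) : ℝ) : ℂ) := by
    have hc : Tendsto (fun t : ℝ => cx x + (t : ℂ) • e) (𝓝 0) (𝓝 (cx x)) := by
      have h5 : Continuous fun t : ℝ => cx x + (t : ℂ) • e := by fun_prop
      have h6 := h5.tendsto 0
      rwa [Complex.ofReal_zero, zero_smul, add_zero] at h6
    filter_upwards [hc.eventually (hU.mem_nhds hxU)] with t ht
    rw [he, ← cx_add_single] at ht ⊢
    exact hFf _ ht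
  exact (h2.congr_of_eventuallyEq h4.symm).unique h3

theorem single_norm (k : Fin 3) : ‖(Pi.single k (1 : ℂ) : C3)‖ ≤ 1 := by
  rw [pi_norm_le_iff_of_nonneg zero_le_one]
  intro j
  by_cases h : j = k
  · subst h
    simp
  · simp [h]

/-- the complexified derivation -/
noncomputable def LC' (V : Fin 3 → C3 → ℂ) (G : C3 → ℂ) (z : C3) : ℂ :=
  ∑ k : Fin 3, V k z * DD (Pi.single k 1) G z

theorem LC'_gh (ghc : T_GHC) {U : Set C3} (hU : IsOpen U) {V : Fin 3 → C3 → ℂ}
    (hV : ∀ k, GH U (V k)) {G : C3 → ℂ} (hG : GH U G) : GH U (LC' V G) := by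
  have h1 : ∀ k, GH U fun z => V k z * DD (Pi.single k 1) G z := fun k =>
    ((ghc U hU).2.1 _ _ (hV k) ((ghc U hU).2.2.1 G (Pi.single k 1) hG)).2
  have h2 := ((ghc U hU).2.1 _ _ ((ghc U hU).2.1 _ _ (h1 0) (h1 1)).1 (h1 2)).1
  have h3 : LC' V G = fun z => V 0 z * DD (Pi.single 0 1) G z + V 1 z * DD (Pi.single 1 1) G z +
      V 2 z * DD (Pi.single 2 1) G z := by
    ext z
    unfold LC'
    rw [Fin.sum_univ_three]
  rw [h3]
  exact h2

theorem cx_mem_ball {p x : E} {r : ℝ} (h : x ∈ ball p r) : cx x ∈ ball (cx p) r := by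
  have hr : 0 < r := pos_of_mem_ball h
  rw [mem_ball, dist_eq_norm] at h ⊢
  rw [pi_norm_lt_iff hr]
  intro k
  have h1 : (cx x - cx p) k = ((x - p) k : ℂ) := by
    simp [cx]
  rw [h1, Complex.norm_real]
  exact (PiLp.norm_apply_le (x - p) k).trans_lt h

theorem nag (ghc : T_GHC) (hxp : T_HXP) : T_NAG := by
  intro O u p ρ hO hu hρ hball hxu
  have hBo : IsOpen (ball (cx p) ρ) := isOpen_ball
  have hpd : ∀ k, HX p ρ (pd k u) := fun k => hxp p ρ O u k hO hu hball hxu
  choose V hV1 hV2 using hpd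
  have hcsub : closedBall (cx p) (ρ / 2) ⊆ ball (cx p) ρ := closedBall_subset_ball (by linarith)
  have hC1 : ∃ C1 : ℝ, 1 ≤ C1 ∧ ∀ k, ∀ z ∈ closedBall (cx p) (ρ / 2), ‖V k z‖ ≤ C1 := by
    have h1 : ∀ k, ∃ C : ℝ, ∀ z ∈ closedBall (cx p) (ρ / 2), ‖V k z‖ ≤ C := fun k =>
      (isCompact_closedBall (cx p) (ρ / 2)).exists_bound_of_continuousOn ((hV1 k).1.mono hcsub)
    choose C hC using h1
    refine ⟨1 + ∑ k, |C k|, ?_, ?_⟩
    · have : 0 ≤ ∑ k, |C k| := Finset.sum_nonneg fun k _ => abs_nonneg _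
      linarith
    · intro k z hz
      have h2 : |C k| ≤ ∑ k, |C k| :=
        Finset.single_le_sum (f := fun k => |C k|) (fun k _ => abs_nonneg _) (Finset.mem_univ k)
      have h3 := le_abs_self (C k)
      linarith [hC k z hz]
  obtain ⟨C1, hC1, hVb⟩ := hC1
  refine ⟨12 * Real.exp 1 * C1 / ρ, ρ / 4, by positivity, by positivity, ?_⟩
  intro f hf hxf
  obtain ⟨G, hG1, hG2⟩ := hxf
  obtain ⟨M0, hM0⟩ := (isCompact_closedBall (cx p) (ρ / 2)).exists_bound_of_continuousOn
    (hG1.1.mono hcsub)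
  -- iterates
  have hit : ∀ j : ℕ, ContDiffOn ℝ ∞ ((Lu u)^[j] f) O ∧ GH (ball (cx p) ρ) ((LC' V)^[j] G) ∧
      ∀ x : E, cx x ∈ ball (cx p) ρ → (LC' V)^[j] G (cx x) = ((Lu u)^[j] f x : ℂ) := by
    intro j
    induction j with
    | zero => exact ⟨hf, hG1, hG2⟩
    | succ j ih =>
      obtain ⟨h1, h2, h3⟩ := ih
      rw [Function.iterate_succ_apply', Function.iterate_succ_apply']
      refine ⟨Lu_smooth hO hu h1, LC'_gh ghc hBo hV1 h2, ?_⟩
      intro x hx
      have e1 : LC' V ((LC' V)^[j] G) (cx x) =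
          ∑ k : Fin 3, V k (cx x) * DD (Pi.single k 1) ((LC' V)^[j] G) (cx x) := rfl
      have e2 : Lu u ((Lu u)^[j] f) x = ∑ k : Fin 3, pd k u x * pd k ((Lu u)^[j] f) x := rfl
      rw [e1, e2]
      push_cast
      refine Finset.sum_congr rfl fun k _ => ?_
      rw [hV2 k x hx, DD_real hO h1 hBo h2 h3 x (hball x hx) hx k]
  -- the estimate
  have hM : 0 ≤ max M0 0 := le_max_right _ _
  set M := max M0 0 with hMd
  have hest : ∀ (s : ℝ), 0 < s → ∀ j : ℕ, ∀ z ∈ ball (cx p) (ρ / 2 - j * s),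
      ‖(LC' V)^[j] G z‖ ≤ (3 * C1 / s) ^ j * M := by
    intro s hs j
    induction j with
    | zero =>
      intro z hz
      simp only [Nat.cast_zero, zero_mul, sub_zero] at hz
      rw [pow_zero, one_mul]
      exact (hM0 z (ball_subset_closedBall hz)).trans (le_max_left _ _)
    | succ j ih =>
      intro z hz
      rw [Function.iterate_succ_apply']
      have hz' : dist z (cx p) < ρ / 2 - ((j : ℝ) + 1) * s := by
        have := mem_ball.1 hz
        push_cast at this
        exact this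
      have hjs : 0 ≤ (j : ℝ) * s := by positivity
      have hsub : ball z s ⊆ ball (cx p) (ρ / 2 - j * s) := by
        intro w hw
        rw [mem_ball] at hw ⊢
        have := dist_triangle w z (cx p)
        linarith
      have hsub2 : ball z s ⊆ ball (cx p) ρ :=
        hsub.trans (ball_subset_ball (by linarith))
      have hzc : z ∈ closedBall (cx p) (ρ / 2) := by
        rw [mem_closedBall]
        linarith
      have hD : ∀ k : Fin 3, ‖DD (Pi.single k 1) ((LC' V)^[j] G) z‖ ≤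
          (3 * C1 / s) ^ j * M / s := fun k =>
        (ghc _ hBo).2.2.2.1 _ _ z _ s (hit j).2.1 hs hsub2 (fun w hw => ih w (hsub hw))
          (single_norm k)
      have e1 : LC' V ((LC' V)^[j] G) z =
          ∑ k : Fin 3, V k z * DD (Pi.single k 1) ((LC' V)^[j] G) z := rfl
      rw [e1]
      calc ‖∑ k : Fin 3, V k z * DD (Pi.single k 1) ((LC' V)^[j] G) z‖
          ≤ ∑ k : Fin 3, ‖V k z * DD (Pi.single k 1) ((LC' V)^[j] G) z‖ := norm_sum_le _ _
        _ ≤ ∑ k : Fin 3, C1 * ((3 * C1 / s) ^ j * M / s) := by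
            refine Finset.sum_le_sum fun k _ => ?_
            rw [norm_mul]
            exact mul_le_mul (hVb k z hzc) (hD k) (norm_nonneg _) (by linarith)
        _ = (3 * C1 / s) ^ (j + 1) * M := by
            rw [Finset.sum_const, Finset.card_univ, Fintype.card_fin, nsmul_eq_mul, pow_succ]
            push_cast
            ring
  refine ⟨M, hM, ?_⟩
  intro k x hx
  have hcx := cx_mem_ball hx
  have hcxρ : cx x ∈ ball (cx p) ρ := ball_subset_ball (by linarith) hcx
  have h1 : |(Lu u)^[k] f x| = ‖(LC' V)^[k] G (cx x)‖ := by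
    rw [(hit k).2.2 x hcxρ, Complex.norm_real, Real.norm_eq_abs]
  rw [h1]
  rcases Nat.eq_zero_or_pos k with hk | hk
  · subst hk
    have h2 := hest 1 one_pos 0 (cx x) (by
      simp only [Nat.cast_zero, zero_mul, sub_zero]
      exact ball_subset_ball (by linarith) hcx)
    simpa using h2
  · have hk' : (0 : ℝ) < k := by exact_mod_cast hk
    have h2 := hest (ρ / (4 * k)) (by positivity) k (cx x) (by
      have : ρ / 2 - k * (ρ / (4 * k)) = ρ / 4 := by
        field_simp
        ring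
      rw [this]
      exact hcx)
    refine h2.trans ?_
    have h3 : 3 * C1 / (ρ / (4 * (k : ℝ))) = 12 * C1 / ρ * k := by
      field_simp
      ring
    rw [h3]
    have h4 : (k : ℝ) ^ k ≤ Real.exp 1 ^ k * k.factorial := by
      have h5 := Real.pow_div_factorial_le_exp (k : ℝ) hk'.le k
      rw [div_le_iff₀ (by exact_mod_cast Nat.factorial_pos k)] at h5
      have h6 : Real.exp k = Real.exp 1 ^ k := by
        rw [← Real.exp_nat_mul, mul_one]
      rwa [h6] at h5
    calc (12 * C1 / ρ * k) ^ k * M = (12 * C1 / ρ) ^ k * M * (k : ℝ) ^ k := by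
          rw [mul_pow]
          ring
      _ ≤ (12 * C1 / ρ) ^ k * M * (Real.exp 1 ^ k * k.factorial) :=
          mul_le_mul_of_nonneg_left h4 (by positivity)
      _ = M * (12 * Real.exp 1 * C1 / ρ) ^ k * k.factorial := by
          have : 12 * Real.exp 1 * C1 / ρ = (12 * C1 / ρ) * Real.exp 1 := by ring
          rw [this, mul_pow]
          ring

end Pool.Agent.H90.IC
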